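import Pool.Agent.Helper382.RO4
set_option autoImplicit false

namespace Pool.Agent.Results.MP_95d7dd_gt.CancelTwo

/-- Euclidean space of dimension `n`. -/
abbrev E (n : ℕ) := EuclideanSpace ℝ (Fin n)

/-- `A` is a bounded regular-open set: `A = int (cl A)`, and `A` is bounded. -/
def BddRegOpen {n : ℕ} (A : Set (E n)) : Prop := interior (closure A) = A ∧ Bornology.IsBounded A

/-- The join `A ∨ B = int (cl (A ∪ B))`. -/
def join {n : ℕ} (A B : Set (E n)) : Set (E n) := interior (closure (A ∪ B))

/-- The translate `A + v`. -/
def translate {n : ℕ} (v : E n) (A : Set (E n)) : Set (E n) := (fun x => x + v) '' A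

/-- `A ∼ B`: equidecomposability with finitely many pairwise disjoint bounded regular-open pieces, with joins in
place of unions, under arbitrary isometries of the space. -/
def Equidec {n : ℕ} (A B : Set (E n)) : Prop :=
  ∃ k : ℕ, ∃ P : Fin k → Set (E n), ∃ g : Fin k → (E n ≃ᵢ E n),
    (∀ i, BddRegOpen (P i)) ∧
    Pairwise (fun i j => Disjoint (P i) (P j)) ∧
    Pairwise (fun i j => Disjoint (g i '' P i) (g j '' P j)) ∧
    interior (closure (⋃ i, P i)) = A ∧
    interior (closure (⋃ i, g i '' P i)) = B

/-- **Cancellation by two**, in every dimension `n ≥ 1`: if `A ∨ (A + s)` and `B ∨ (B + t)` are equidecomposable,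
where `A + s` is disjoint from `A` and `B + t` is disjoint from `B`, then `A` and `B` are equidecomposable.
If `A + s` is at positive distance from `A`, then `A ∨ (A + s) = A ∪ (A + s)` represents the type `2[A]`. -/
theorem result : ∀ n : ℕ, 1 ≤ n → ∀ A B : Set (E n), BddRegOpen A → BddRegOpen B →
    ∀ s t : E n, Disjoint A (translate s A) → Disjoint B (translate t B) →
      Equidec (join A (translate s A)) (join B (translate t B)) → Equidec A B := by
  intro n hn A B hA hB s t hs ht h
  exact Pool.Agent.H382RO.cancel_two hn hA.1 hA.2 hB.1 hB.2 s t hs ht h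

end Pool.Agent.Results.MP_95d7dd_gt.CancelTwo
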